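import Pool.Agent.Helper69.ST.GoalsW
import Pool.Agent.Helper45.Stek.LA

set_option autoImplicit false

namespace Pool.Agent.Helper24.ST.LA2

open Pool.Agent.Helper45.Stek Pool.Agent.Helper69.ST

theorem t : Pool.Agent.Helper69.ST.S_LA2 := by
  intro k hk u hu
  obtain ⟨c, hc, h⟩ := exists_ker k (fun j i =>
    if 0 ≤ ((j : ℕ) : ℤ) - (((k - 1) / 2 : ℕ) : ℤ) then
      fcr (u i) 1 (((j : ℕ) : ℤ) - (((k - 1) / 2 : ℕ) : ℤ)) +
        ((2 * ((((j : ℕ) : ℤ) - (((k - 1) / 2 : ℕ) : ℤ) : ℤ) : ℝ) / k : ℝ) : ℂ) *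
          fcr (u i) 1 (((j : ℕ) : ℤ) - (((k - 1) / 2 : ℕ) : ℤ) - k)
    else
      fcr (u i) 1 (((j : ℕ) : ℤ) - (((k - 1) / 2 : ℕ) : ℤ)) +
        ((2 * (-((((j : ℕ) : ℤ) - (((k - 1) / 2 : ℕ) : ℤ) : ℤ) : ℝ)) / k : ℝ) : ℂ) *
          fcr (u i) 1 (((j : ℕ) : ℤ) - (((k - 1) / 2 : ℕ) : ℤ) + k))
  refine ⟨c, hc, ?_⟩
  intro l hl1 hl2
  have hj := h ⟨(l + (((k - 1) / 2 : ℕ) : ℤ)).toNat, by omega⟩
  have h3 : (((l + (((k - 1) / 2 : ℕ) : ℤ)).toNat : ℕ) : ℤ) - (((k - 1) / 2 : ℕ) : ℤ) = l := by omega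
  simp only [h3] at hj
  simp only [fcr_sum k u hu]
  split_ifs with h0
  · simp only [h0, if_true, mul_add, Finset.sum_add_distrib] at hj
    rw [eq_neg_of_add_eq_zero_left hj, neg_mul, Finset.mul_sum]
    congr 1
    apply Finset.sum_congr rfl
    intro i _
    ring
  · simp only [h0, if_false, mul_add, Finset.sum_add_distrib] at hj
    rw [eq_neg_of_add_eq_zero_left hj, neg_mul, Finset.mul_sum]
    congr 1
    apply Finset.sum_congr rfl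
    intro i _
    ring

end Pool.Agent.Helper24.ST.LA2
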